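import Mathlib

/-!
# Blueprint: proportional choosability of `K_{n,m}` (MP_f66848_co, full answer YES)

`χ_pc(K_{n,m}) / m → 1/2` for every fixed `n`; indeed `m/2 < χ_pc ≤ (m + 1)/2 + n²` for all `m ≥ 1`.
Every task is a `def TaskX : Prop`; earlier ones that are needed are hypotheses of the theorem you write.
-/

set_option autoImplicit false

namespace Pool.Agent.Q157.PC

open Finset

/-- the multiplicity of the colour `c` in the list assignment `L` -/
def mult {V : Type} [Fintype V] (L : V → Finset ℕ) (c : ℕ) : ℕ :=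
  (univ.filter fun v => c ∈ L v).card

/-- the number of vertices coloured `c` -/
def use {V : Type} [Fintype V] (f : V → ℕ) (c : ℕ) : ℕ := (univ.filter fun v => f v = c).card

/-- `f` is a proportional `L`-colouring of `G` -/
def IsProportional {V : Type} [Fintype V] (G : SimpleGraph V) (k : ℕ) (L : V → Finset ℕ)
    (f : V → ℕ) : Prop :=
  (∀ v, f v ∈ L v) ∧ (∀ u v, G.Adj u v → f u ≠ f v) ∧
    ∀ c, (∃ v, c ∈ L v) → (use f c = mult L c / k ∨ use f c = (mult L c + k - 1) / k)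

/-- `G` is proportionally `k`-choosable -/
def PropChoosable {V : Type} [Fintype V] (G : SimpleGraph V) (k : ℕ) : Prop :=
  ∀ L : V → Finset ℕ, (∀ v, (L v).card = k) → ∃ f : V → ℕ, IsProportional G k L f

/-- the proportional choice number -/
noncomputable def chiPC {V : Type} [Fintype V] (G : SimpleGraph V) : ℕ :=
  sInf {k | 1 ≤ k ∧ PropChoosable G k}

/-- `K_{n,m}` -/
abbrev K (n m : ℕ) : SimpleGraph (Fin n ⊕ Fin m) := completeBipartiteGraph (Fin n) (Fin m)

/-- all colours -/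
def pal {V : Type} [Fintype V] (L : V → Finset ℕ) : Finset ℕ := univ.biUnion L

/-- heavy colours: multiplicity `> k` -/
def heavy {V : Type} [Fintype V] (k : ℕ) (L : V → Finset ℕ) : Finset ℕ :=
  (pal L).filter fun c => k < mult L c

/-- colours that must be used: multiplicity `≥ k` -/
def must {V : Type} [Fintype V] (k : ℕ) (L : V → Finset ℕ) : Finset ℕ :=
  (pal L).filter fun c => k ≤ mult L c

/-- upper quota: 2 for heavy colours, otherwise 1 -/
def up {V : Type} [Fintype V] (k : ℕ) (L : V → Finset ℕ) (c : ℕ) : ℕ :=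
  if k < mult L c then 2 else 1

/-- the lists in which the first part avoids the heavy colours -/
def lA {n m : ℕ} (k : ℕ) (L : Fin n ⊕ Fin m → Finset ℕ) : Fin n ⊕ Fin m → Finset ℕ
  | Sum.inl x => L (Sum.inl x) \ heavy k L
  | Sum.inr y => L (Sum.inr y)

/-- Mendelsohn-Dulmage. Proof from Hall (`Finset.all_card_le_biUnion_card_iff_exists_injective`) for
`ι = S`, `α = V ⊕ Fin (|S| - |V|)`: a slot `s` is joined to `inl v` if `E v s` and to all dummies if it
is not `must`; the injection is a bijection by cardinality (`hV univ` gives `|V| ≤ |S|`). For `T ⊆ S`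
containing an optional slot put `W = {v | no s ∈ T with E v s}`; `hV W` bounds `|W| ≤ |S \ T|`. -/
def TaskMD : Prop := ∀ (V S : Type) [Fintype V] [Fintype S] (E : V → S → Prop) (mu : S → Prop),
  (∀ W : Finset V, ∃ T : Finset S, (∀ s ∈ T, ∃ v ∈ W, E v s) ∧ W.card ≤ T.card) →
  (∀ T : Finset S, (∀ s ∈ T, mu s) → ∃ W : Finset V, (∀ v ∈ W, ∃ s ∈ T, E v s) ∧ T.card ≤ W.card) →
  ∃ g : V → S, Function.Injective g ∧ (∀ v, E v (g v)) ∧ ∀ s, mu s → ∃ v, g v = s

/-- quota version, from `TaskMD` with `S = {p : ℕ × ℕ // p.1 ∈ univ.biUnion ℓ ∧ p.2 < q p.1}`,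
`E v p = (p.1 ∈ ℓ v)`, `mu p = (p.1 ∈ mm ∧ p.2 = 0)` (theorem main (h : TaskMD) : TaskQuota) -/
def TaskQuota : Prop := ∀ (W : Type) [Fintype W] (l : W → Finset ℕ) (q : ℕ → ℕ) (mm : Finset ℕ),
  (∀ c ∈ mm, 1 ≤ q c) → (∀ A : Finset W, A.card ≤ ∑ c ∈ A.biUnion l, q c) →
  (∀ Z : Finset ℕ, Z ⊆ mm → Z.card ≤ (univ.filter fun v => ∃ c ∈ Z, c ∈ l v).card) →
  ∃ f : W → ℕ, (∀ v, f v ∈ l v) ∧ (∀ c ∈ mm, ∃ v, f v = c) ∧ ∀ c, use f c ≤ q c

/-- Hall for all vertices, first part avoiding heavy colours (few heavy colours). Let `w = |A|`,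
`N = A.biUnion (lA k L)`. If `A` has no vertex in the second part: `|N| ≥ k - h ≥ n` or `A = ∅`.
Otherwise `|N| ≥ k`; if `w > k` then all heavy colours are in `N` (a heavy colour is in at least
`k + 1 - n` lists of the second part) and double counting of pairs (v, c), v ∈ A, c ∈ lA v:
`w k - n h ≤ h m + (|N| - h) k`, so `|N| + h ≥ w` because `2 k ≥ m + 2 n`. -/
def TaskA1 : Prop := ∀ (n m k : ℕ) (L : Fin n ⊕ Fin m → Finset ℕ), 1 ≤ n → m + 2 * n ≤ 2 * k →
  2 * n ≤ k → (∀ v, (L v).card = k) → (heavy k L).card * n < k →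
  ∀ A : Finset (Fin n ⊕ Fin m), A.card ≤ ∑ c ∈ A.biUnion (lA k L), up k L c

/-- Hall for the colours that must be used: double counting of pairs (v, c), c ∈ Z, c ∈ lA v:
`|Z| k - (n - 1) h ≤ |N| k` and `(n - 1) h < k`. -/
def TaskA2 : Prop := ∀ (n m k : ℕ) (L : Fin n ⊕ Fin m → Finset ℕ), 1 ≤ n → m + 2 * n ≤ 2 * k →
  2 * n ≤ k → (∀ v, (L v).card = k) → (heavy k L).card * n < k →
  ∀ Z : Finset ℕ, Z ⊆ must k L → Z.card ≤ (univ.filter fun v => ∃ c ∈ Z, c ∈ lA k L v).card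

/-- joint Hall: `w k ≤ Σ_{c ∈ N} min(mult c, w) ≤ Σ_{c ∈ N} k · up c` as `w < 2k` -/
def TaskJ1 : Prop := ∀ (V : Type) [Fintype V] (k : ℕ) (L : V → Finset ℕ), 1 ≤ k →
  Fintype.card V ≤ 2 * k → (∀ v, (L v).card = k) →
  ∀ A : Finset V, A.card ≤ ∑ c ∈ A.biUnion L, up k L c

/-- joint Hall for the colours that must be used: `|Z| k ≤ Σ_{c ∈ Z} mult c ≤ |N| k` -/
def TaskJ2 : Prop := ∀ (V : Type) [Fintype V] (k : ℕ) (L : V → Finset ℕ), 1 ≤ k →
  (∀ v, (L v).card = k) →
  ∀ Z : Finset ℕ, Z ⊆ must k L → Z.card ≤ (univ.filter fun v => ∃ c ∈ Z, c ∈ L v).card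

/-- Hall for the second part after the removal of at most `n` colours (many heavy colours).
If `w = |A| ≤ k - n` use one list. Otherwise all heavy colours outside `R` are in `N` and
double counting gives `w (k - n) ≤ t w + (|N| - t) k` with `t ≥ h - n` the number of heavy colours in
`N`, so `(|N| + t) k ≥ w k - m n + (h - n)(2 k - m) ≥ w k`. -/
def TaskB1 : Prop := ∀ (n m k : ℕ) (L : Fin n ⊕ Fin m → Finset ℕ), 1 ≤ n → m + 2 * n ≤ 2 * k →
  2 * n ≤ k → (∀ v, (L v).card = k) → m * n ≤ ((heavy k L).card - n) * (2 * k - m) →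
  ∀ R : Finset ℕ, R.card ≤ n →
  ∀ A : Finset (Fin m), A.card ≤ ∑ c ∈ A.biUnion (fun y => L (Sum.inr y) \ R), up k L c

/-- floor and ceiling -/
def TaskUse : Prop := ∀ e k u : ℕ, 1 ≤ k → 1 ≤ e → e < 2 * k → u ≤ (if k < e then 2 else 1) →
  (k ≤ e → 1 ≤ u) → (u = e / k ∨ u = (e + k - 1) / k)

/-- parameters -/
def TaskPar : Prop := ∀ n m : ℕ, 1 ≤ n → 1 ≤ m →
  m + 2 * n ≤ 2 * ((m + 1) / 2 + n ^ 2) ∧ 2 * n ≤ (m + 1) / 2 + n ^ 2 ∧
  ∀ h : ℕ, (m + 1) / 2 + n ^ 2 ≤ h * n →
    m * n ≤ (h - n) * (2 * ((m + 1) / 2 + n ^ 2) - m)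

/-- few heavy colours: `theorem main (q : TaskQuota) (a : TaskA1) (b : TaskA2) (u : TaskUse)`; apply
`TaskQuota` to `lA k L`, `up k L`, `must k L`; a colour used in both parts is not heavy, so it is used at
most once. -/
def TaskCaseA : Prop := ∀ (n m k : ℕ) (L : Fin n ⊕ Fin m → Finset ℕ), 1 ≤ n → m + 2 * n ≤ 2 * k →
  2 * n ≤ k → (∀ v, (L v).card = k) → (heavy k L).card * n < k → ∃ f, IsProportional (K n m) k L f

/-- many heavy colours: `theorem main (q : TaskQuota) (a : TaskJ1) (b : TaskJ2) (c : TaskB1)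
(u : TaskUse)`; `TaskQuota` gives `f0` on all vertices; `R = f0 (first part)`; `TaskQuota` again for
the second part with lists `L (inr y) \ R`, quotas `up`, must = `must k L \ R` (its Hall condition holds
because `f0` uses these colours on the second part only: `Z` injects by `f0`); `f = f0` on the first
part. -/
def TaskCaseB : Prop := ∀ (n m k : ℕ) (L : Fin n ⊕ Fin m → Finset ℕ), 1 ≤ n → m + 2 * n ≤ 2 * k →
  2 * n ≤ k → (∀ v, (L v).card = k) → m * n ≤ ((heavy k L).card - n) * (2 * k - m) →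
  ∃ f, IsProportional (K n m) k L f

/-- lower bound: give one vertex `x₀` of the first part and all of the second part the list
`{0, .., k-1}` and the other vertices of the first part pairwise disjoint lists; the colour of `x₀` has
multiplicity `m + 1 ≥ 2k`, so it is used twice, hence also on the second part. -/
def TaskLow : Prop := ∀ n m k : ℕ, 1 ≤ n → 1 ≤ k → 2 * k ≤ m + 1 → ¬ PropChoosable (K n m) k

/-- the limit -/
def TaskLim : Prop := ∀ (n : ℕ) (c : ℕ → ℕ), (∀ m, 1 ≤ m →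
  m < 2 * c m ∧ c m ≤ (m + 1) / 2 + n ^ 2) →
  Filter.Tendsto (fun m : ℕ => (c m : ℝ) / m) Filter.atTop (nhds (1 / 2))

end Pool.Agent.Q157.PC
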