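import Pool.Agent.Q157.PC.Stmts

set_option autoImplicit false

namespace Pool.Agent.Q157.PC

open Finset

theorem final (hA : TaskCaseA) (hB : TaskCaseB) (hp : TaskPar) (hl : TaskLow) (hlim : TaskLim) :
    ∀ n : ℕ, 1 ≤ n →
      (∀ m : ℕ, 1 ≤ m → m + 1 < 2 * chiPC (K n m) ∧ chiPC (K n m) ≤ (m + 1) / 2 + n ^ 2 ∧
        PropChoosable (K n m) (chiPC (K n m))) ∧
      Filter.Tendsto (fun m : ℕ => (chiPC (K n m) : ℝ) / m) Filter.atTop (nhds (1 / 2)) := by
  intro n hn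
  have key : ∀ m : ℕ, 1 ≤ m → m + 1 < 2 * chiPC (K n m) ∧ chiPC (K n m) ≤ (m + 1) / 2 + n ^ 2 ∧
      PropChoosable (K n m) (chiPC (K n m)) := by
    intro m hm
    obtain ⟨h1, h2, h3⟩ := hp n m hn hm
    set k := (m + 1) / 2 + n ^ 2 with hk
    have hch : PropChoosable (K n m) k := by
      intro L hL
      by_cases h : (heavy k L).card * n < k
      · exact hA n m k L hn h1 h2 hL h
      · exact hB n m k L hn h1 h2 hL (h3 _ (not_lt.1 h))
    have hk1 : 1 ≤ k := by omega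
    have hne : {k | 1 ≤ k ∧ PropChoosable (K n m) k}.Nonempty := ⟨k, hk1, hch⟩
    have hmem := Nat.sInf_mem hne
    have hle : chiPC (K n m) ≤ k := Nat.sInf_le ⟨hk1, hch⟩
    have hmem' : 1 ≤ chiPC (K n m) ∧ PropChoosable (K n m) (chiPC (K n m)) := hmem
    refine ⟨?_, hle, hmem'.2⟩
    by_contra hlt
    exact hl n m (chiPC (K n m)) hn hmem'.1 (by omega) hmem'.2
  refine ⟨key, ?_⟩
  refine hlim n (fun m => chiPC (K n m)) fun m hm => ?_
  obtain ⟨h1, h2, -⟩ := key m hm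
  exact ⟨by omega, h2⟩

end Pool.Agent.Q157.PC
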