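import Pool.Agent.Q157.PC.Stmts

set_option autoImplicit false

namespace Pool.Agent.Q157.PC.TaskA1

open Finset Pool.Agent.Q157.PC

lemma card_left {n m : ℕ} (T : Finset (Fin n ⊕ Fin m)) :
    (T.filter (fun v => v.isLeft = true)).card ≤ n := by
  classical
  calc _ ≤ ((univ : Finset (Fin n)).image (Sum.inl : Fin n → Fin n ⊕ Fin m)).card := by
        apply Finset.card_le_card
        intro v hv
        rcases v with x | y
        · simp
        · simp at hv
    _ ≤ (univ : Finset (Fin n)).card := Finset.card_image_le
    _ = n := by simp

lemma card_right {n m : ℕ} (T : Finset (Fin n ⊕ Fin m)) (hT : ∀ v ∈ T, ¬ v.isLeft = true) :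
    T.card ≤ m := by
  classical
  calc _ ≤ ((univ : Finset (Fin m)).image (Sum.inr : Fin m → Fin n ⊕ Fin m)).card := by
        apply Finset.card_le_card
        intro v hv
        rcases v with x | y
        · exact absurd rfl (hT _ hv)
        · simp
    _ ≤ (univ : Finset (Fin m)).card := Finset.card_image_le
    _ = m := by simp

lemma card_split {n m : ℕ} (T : Finset (Fin n ⊕ Fin m)) :
    T.card ≤ n + (T.filter (fun v => ¬ v.isLeft = true)).card := by
  classical
  have h1 : T ⊆ T.filter (fun v => v.isLeft = true) ∪ T.filter (fun v => ¬ v.isLeft = true) := by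
    intro v hv
    by_cases h : v.isLeft = true
    · exact Finset.mem_union_left _ (by simp [hv, h])
    · exact Finset.mem_union_right _ (Finset.mem_filter.2 ⟨hv, h⟩)
  have h2 := (Finset.card_le_card h1).trans (Finset.card_union_le _ _)
  have h3 := card_left T
  omega

theorem main : Pool.Agent.Q157.PC.TaskA1 := by
  intro n m k L hn hmk hnk hL hh A
  classical
  set H := heavy k L with hH
  set N := A.biUnion (lA k L) with hN
  have hsub : ∀ v, lA k L v ⊆ L v := by
    rintro (x | y)
    · exact Finset.sdiff_subset
    · exact Finset.Subset.refl _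
  have hNpal : ∀ c ∈ N, c ∈ pal L := by
    intro c hc
    obtain ⟨v, hv, hcv⟩ := Finset.mem_biUnion.1 hc
    exact Finset.mem_biUnion.2 ⟨v, mem_univ _, hsub v hcv⟩
  have hmemH : ∀ c, c ∈ pal L → (c ∈ H ↔ k < mult L c) := by
    intro c hc
    rw [hH, heavy, Finset.mem_filter]
    exact ⟨fun h => h.2, fun h => ⟨hc, h⟩⟩
  have hhn : H.card + n ≤ k := by
    rcases Nat.eq_zero_or_pos H.card with h0 | h0
    · omega
    · have : (H.card - 1) * (n - 1) + H.card + n ≤ H.card * n + 1 := by
        obtain ⟨a, ha⟩ := Nat.exists_eq_succ_of_ne_zero (by omega : H.card ≠ 0)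
        obtain ⟨b, hb⟩ := Nat.exists_eq_succ_of_ne_zero (by omega : n ≠ 0)
        rw [ha, hb]
        simp only [Nat.succ_eq_add_one, Nat.add_sub_cancel]
        nlinarith
      have h2 := Nat.zero_le ((H.card - 1) * (n - 1))
      omega
  have hup : ∑ c ∈ N, up k L c = N.card + (N.filter (fun c => c ∈ H)).card := by
    rw [Finset.card_filter, Finset.card_eq_sum_ones, ← Finset.sum_add_distrib]
    refine Finset.sum_congr rfl fun c hc => ?_
    have h1 := hmemH c (hNpal c hc)
    unfold up
    by_cases h2 : k < mult L c
    · rw [if_pos h2, if_pos (h1.2 h2)]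
    · rw [if_neg h2, if_neg (fun h3 => h2 (h1.1 h3))]
  rw [hup]
  by_cases hA : ∃ y, Sum.inr y ∈ A
  · obtain ⟨y, hy⟩ := hA
    have hk : k ≤ N.card := by
      rw [← hL (Sum.inr y)]
      refine Finset.card_le_card fun c hc => ?_
      exact Finset.mem_biUnion.2 ⟨_, hy, hc⟩
    by_cases hw : A.card ≤ k
    · omega
    push Not at hw
    -- all heavy colours are in `N`
    have hHN : ∀ c ∈ H, c ∈ N := by
      intro c hc
      by_contra hcN
      have hcm : k < mult L c := by
        rw [hH, heavy, Finset.mem_filter] at hc
        exact hc.2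
      have h1 := card_split (univ.filter fun v => c ∈ L v)
      have h2 := card_split A
      have h3 : Disjoint ((univ.filter fun v => c ∈ L v).filter (fun v => ¬ v.isLeft = true))
          (A.filter (fun v => ¬ v.isLeft = true)) := by
        rw [Finset.disjoint_left]
        rintro (x | z) hv hv'
        · simp at hv
        · simp only [Finset.mem_filter, mem_univ, true_and] at hv hv'
          exact hcN (Finset.mem_biUnion.2 ⟨_, hv'.1, hv.1⟩)
      have h4 := card_right (((univ.filter fun v => c ∈ L v).filter (fun v => ¬ v.isLeft = true)) ∪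
          (A.filter (fun v => ¬ v.isLeft = true))) (by
        intro v hv
        rcases Finset.mem_union.1 hv with h | h
        · exact (Finset.mem_filter.1 h).2
        · exact (Finset.mem_filter.1 h).2)
      rw [Finset.card_union_of_disjoint h3] at h4
      unfold mult at hcm
      omega
    have hNH : N.filter (fun c => c ∈ H) = H := by
      ext c
      rw [Finset.mem_filter]
      exact ⟨fun h => h.2, fun h => ⟨hHN c h, h⟩⟩
    rw [hNH]
    -- double counting
    have hlow : A.card * k ≤ ∑ v ∈ A, (lA k L v).card + n * H.card := by
      have h1 : ∀ v ∈ A, k ≤ (lA k L v).card + (if v.isLeft = true then H.card else 0) := by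
        rintro (x | z) -
        · have h2 := Finset.le_card_sdiff H (L (Sum.inl x))
          rw [hL] at h2
          have h3 : lA k L (Sum.inl x) = L (Sum.inl x) \ H := rfl
          rw [h3]
          simp only [Sum.isLeft_inl, if_true]
          omega
        · have h3 : lA k L (Sum.inr z) = L (Sum.inr z) := rfl
          rw [h3, hL]
          omega
      have h2 := Finset.sum_le_sum h1
      rw [Finset.sum_const, smul_eq_mul, Finset.sum_add_distrib, ← Finset.sum_filter,
        Finset.sum_const, smul_eq_mul] at h2
      have h3 := Nat.mul_le_mul_right H.card (card_left A)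
      omega
    have hupp : ∑ v ∈ A, (lA k L v).card ≤ H.card * m + (N.card - H.card) * k := by
      have h1 : ∀ v ∈ A, (lA k L v).card = ∑ c ∈ N, if c ∈ lA k L v then 1 else 0 := by
        intro v hv
        rw [← Finset.card_filter]
        congr 1
        ext c
        rw [Finset.mem_filter]
        exact ⟨fun h => ⟨Finset.mem_biUnion.2 ⟨v, hv, h⟩, h⟩, fun h => h.2⟩
      rw [Finset.sum_congr rfl h1, Finset.sum_comm]
      have h2 : ∀ c ∈ N, (∑ v ∈ A, if c ∈ lA k L v then 1 else 0) ≤ if c ∈ H then m else k := by
        intro c hc
        rw [← Finset.card_filter]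
        by_cases hcH : c ∈ H
        · rw [if_pos hcH]
          refine card_right _ ?_
          rintro (x | z) hv
          · have h3 : c ∈ L (Sum.inl x) \ H := (Finset.mem_filter.1 hv).2
            exact absurd hcH (Finset.mem_sdiff.1 h3).2
          · simp
        · rw [if_neg hcH]
          have h3 : ¬ k < mult L c := fun h => hcH ((hmemH c (hNpal c hc)).2 h)
          refine le_trans (Finset.card_le_card ?_) (not_lt.1 h3)
          intro v hv
          exact Finset.mem_filter.2 ⟨mem_univ _, hsub v (Finset.mem_filter.1 hv).2⟩
      refine (Finset.sum_le_sum h2).trans ?_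
      rw [Finset.sum_ite, Finset.sum_const, Finset.sum_const, smul_eq_mul, smul_eq_mul, hNH]
      have h4 : (N.filter (fun c => ¬ c ∈ H)).card = N.card - H.card := by
        have h5 : N.filter (fun c => ¬ c ∈ H) = N \ H := by
          ext c
          simp
        rw [h5, Finset.card_sdiff_of_subset (fun c hc => hHN c hc)]
      rw [h4]
    have hHc : H.card ≤ N.card := Finset.card_le_card (fun c hc => hHN c hc)
    obtain ⟨d, hd⟩ := Nat.exists_eq_add_of_le hHc
    have hd' : N.card - H.card = d := by omega
    rw [hd'] at hupp
    rw [hd]
    generalize H.card = h at *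
    generalize A.card = w at *
    generalize ∑ v ∈ A, (lA k L v).card = s at *
    have h5 : w * k ≤ h * m + d * k + n * h := by omega
    have h6 : h * (m + n) ≤ h * (2 * k) := Nat.mul_le_mul_left _ (by omega)
    have h7 : w * k ≤ (h + d + h) * k := by nlinarith
    exact Nat.le_of_mul_le_mul_right h7 (by omega)
  · push Not at hA
    rcases A.eq_empty_or_nonempty with h0 | ⟨v, hv⟩
    · simp [h0]
    · rcases v with x | y
      · have h1 : k - H.card ≤ N.card := by
          have h2 := Finset.le_card_sdiff H (L (Sum.inl x))
          rw [hL] at h2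
          refine h2.trans (Finset.card_le_card fun c hc => ?_)
          exact Finset.mem_biUnion.2 ⟨_, hv, hc⟩
        have h2 : A.card ≤ n := by
          have h3 : A.filter (fun v => v.isLeft = true) = A := by
            rw [Finset.filter_eq_self]
            rintro (x | y) hz
            · rfl
            · exact absurd hz (hA y)
          rw [← h3]
          exact card_left A
        omega
      · exact absurd hv (hA y)

end Pool.Agent.Q157.PC.TaskA1
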