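import Mathlib
import Pool.Agent.Q157.PC.Stmts

set_option autoImplicit false

namespace Pool.Agent.Q157.PC.TCaseA

open Finset

theorem mem_pal {V : Type} [Fintype V] {L : V → Finset ℕ} {c : ℕ} {v : V} (h : c ∈ L v) :
    c ∈ pal L := mem_biUnion.mpr ⟨v, mem_univ v, h⟩

theorem main (q : TaskQuota) (a : TaskA1) (b : TaskA2) (u : TaskUse) : TaskCaseA := by
  classical
  intro n m k L hn hmk hk2 hL hh
  obtain ⟨f, hf1, hf2, hf3⟩ := q (Fin n ⊕ Fin m) (lA k L) (up k L) (must k L)
    (fun c _ => by
      unfold up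
      split_ifs <;> omega)
    (a n m k L hn hmk hk2 hL hh) (b n m k L hn hmk hk2 hL hh)
  have hfL : ∀ v, f v ∈ L v := by
    intro v
    have h1 := hf1 v
    cases v with
    | inl x => exact (mem_sdiff.mp h1).1
    | inr y => exact h1
  have hprop : ∀ (x : Fin n) (y : Fin m), f (Sum.inl x) ≠ f (Sum.inr y) := by
    intro x y he
    have h1 : f (Sum.inl x) ∈ L (Sum.inl x) \ heavy k L := hf1 (Sum.inl x)
    have h2 : f (Sum.inl x) ∉ heavy k L := (mem_sdiff.mp h1).2
    have h3 : ¬ k < mult L (f (Sum.inl x)) := fun h4 =>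
      h2 (mem_filter.mpr ⟨mem_pal (mem_sdiff.mp h1).1, h4⟩)
    have h5 : use f (f (Sum.inl x)) ≤ 1 := by
      have := hf3 (f (Sum.inl x))
      unfold up at this
      rwa [if_neg h3] at this
    have h6 : 2 ≤ use f (f (Sum.inl x)) := by
      unfold use
      have h7 : ({Sum.inl x, Sum.inr y} : Finset (Fin n ⊕ Fin m)) ⊆
          univ.filter fun v => f v = f (Sum.inl x) := by
        intro v hv
        rw [mem_insert, mem_singleton] at hv
        rw [mem_filter]
        refine ⟨mem_univ _, ?_⟩
        rcases hv with rfl | rfl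
        · rfl
        · exact he.symm
      have h8 := card_le_card h7
      rwa [card_pair (by simp)] at h8
    omega
  refine ⟨f, hfL, ?_, ?_⟩
  · intro v w hvw
    rcases v with x | y <;> rcases w with x' | y'
    · simp at hvw
    · exact hprop x y'
    · exact (hprop x' y).symm
    · simp at hvw
  · rintro c ⟨v, hv⟩
    refine u (mult L c) k (use f c) (by omega) ?_ ?_ (hf3 c) ?_
    · exact card_pos.mpr ⟨v, mem_filter.mpr ⟨mem_univ _, hv⟩⟩
    · have h1 : mult L c ≤ n + m := by
        unfold mult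
        refine (card_filter_le _ _).trans ?_
        rw [card_univ]
        simp
      omega
    · intro hc
      obtain ⟨w, hw⟩ := hf2 c (mem_filter.mpr ⟨mem_pal hv, hc⟩)
      exact card_pos.mpr ⟨w, mem_filter.mpr ⟨mem_univ _, hw⟩⟩

end Pool.Agent.Q157.PC.TCaseA
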