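import Pool.Agent.Q157.PC.Stmts

set_option autoImplicit false

namespace Pool.Agent.Q157.PC.TaskMD

open Finset

theorem main : Pool.Agent.Q157.PC.TaskMD := by
  classical
  intro V S _ _ E mu h1 h2
  have hVS : Fintype.card V ≤ Fintype.card S := by
    obtain ⟨T, _, hT⟩ := h1 univ
    rw [card_univ] at hT
    exact hT.trans (card_le_univ T)
  obtain ⟨d, hd⟩ : ∃ d, d = Fintype.card S - Fintype.card V := ⟨_, rfl⟩
  let t : S → Finset (V ⊕ Fin d) := fun s =>
    univ.filter fun a => Sum.elim (fun v => E v s) (fun _ => ¬ mu s) a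
  have hall : ∀ T : Finset S, T.card ≤ (T.biUnion t).card := by
    intro T
    by_cases hT : ∀ s ∈ T, mu s
    · obtain ⟨W, hW, hc⟩ := h2 T hT
      have hsub : W.disjSum (∅ : Finset (Fin d)) ⊆ T.biUnion t := by
        intro a ha
        rw [mem_disjSum] at ha
        rcases ha with ⟨v, hv, rfl⟩ | ⟨b, hb, rfl⟩
        · obtain ⟨s, hs, hE⟩ := hW v hv
          rw [mem_biUnion]
          exact ⟨s, hs, by simpa [t] using hE⟩
        · simp at hb
      have := card_le_card hsub
      rw [card_disjSum, card_empty] at this
      omega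
    · push Not at hT
      obtain ⟨s₀, hs₀, hmu⟩ := hT
      have hsub : (univ.filter fun v => ∃ s ∈ T, E v s).disjSum (univ : Finset (Fin d)) ⊆
          T.biUnion t := by
        intro a ha
        rw [mem_disjSum] at ha
        rcases ha with ⟨v, hv, rfl⟩ | ⟨b, hb, rfl⟩
        · obtain ⟨s, hs, hE⟩ := (mem_filter.1 hv).2
          rw [mem_biUnion]
          exact ⟨s, hs, by simpa [t] using hE⟩
        · rw [mem_biUnion]
          exact ⟨s₀, hs₀, by simpa [t] using hmu⟩
      have h3 := card_le_card hsub
      rw [card_disjSum, card_univ, Fintype.card_fin] at h3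
      obtain ⟨T', hT', hc⟩ := h1 (univ.filter fun v => ¬ ∃ s ∈ T, E v s)
      have h4 : (univ.filter fun v => ∃ s ∈ T, E v s).card +
          (univ.filter fun v => ¬ ∃ s ∈ T, E v s).card = Fintype.card V := by
        rw [← card_univ]
        exact card_filter_add_card_filter_not (s := (univ : Finset V)) (fun v => ∃ s ∈ T, E v s)
      have h5 : Disjoint T' T := by
        rw [disjoint_left]
        intro s hs hsT
        obtain ⟨v, hv, hE⟩ := hT' s hs
        exact (mem_filter.1 hv).2 ⟨s, hsT, hE⟩
      have h6 : T'.card + T.card ≤ Fintype.card S := by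
        rw [← card_union_of_disjoint h5]
        exact card_le_univ _
      omega
  obtain ⟨f, hf, hft⟩ := (Finset.all_card_le_biUnion_card_iff_exists_injective t).1 hall
  have hbij : Function.Bijective f := by
    rw [Fintype.bijective_iff_injective_and_card]
    refine ⟨hf, ?_⟩
    rw [Fintype.card_sum, Fintype.card_fin]
    omega
  let e := Equiv.ofBijective f hbij
  have he : ∀ v : V, f (e.symm (Sum.inl v)) = Sum.inl v := fun v =>
    Equiv.ofBijective_apply_symm_apply f hbij _
  refine ⟨fun v => e.symm (Sum.inl v), ?_, ?_, ?_⟩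
  · intro v w hvw
    have := e.symm.injective hvw
    exact Sum.inl_injective this
  · intro v
    have h := hft (e.symm (Sum.inl v))
    rw [he v] at h
    simpa [t] using h
  · intro s hs
    have h := hft s
    rcases hfs : f s with v | b
    · refine ⟨v, ?_⟩
      apply hf
      rw [he v, hfs]
    · rw [hfs] at h
      exact absurd hs (by simpa [t] using h)

end Pool.Agent.Q157.PC.TaskMD
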