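import Pool.Agent.Q157.PC.Stmts
set_option autoImplicit false

namespace Pool.Agent.Q157.PC.TaskQuota
open Pool.Agent.Q157.PC Finset

theorem main (h : TaskMD) : Pool.Agent.Q157.PC.TaskQuota := by
  classical
  intro W _ l q mm hq hA hZ
  let Sf : Finset ((_ : ℕ) × ℕ) := (univ.biUnion l).sigma (fun c => range (q c))
  have hS : ∀ p : (_ : ℕ) × ℕ, p ∈ Sf ↔ (∃ v, p.1 ∈ l v) ∧ p.2 < q p.1 := by
    rintro ⟨a, b⟩
    simp [Sf]
  have h1 : ∀ A : Finset W, ∃ T : Finset {p // p ∈ Sf}, (∀ s ∈ T, ∃ v ∈ A, s.1.1 ∈ l v) ∧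
      A.card ≤ T.card := by
    intro A
    refine ⟨((A.biUnion l).sigma (fun c => range (q c))).subtype (fun p => p ∈ Sf), ?_, ?_⟩
    · intro s hs
      rw [mem_subtype, mem_sigma, mem_biUnion] at hs
      exact hs.1
    · refine (hA A).trans (le_of_eq ?_)
      rw [card_subtype, filter_true_of_mem, card_sigma]
      · simp
      · rintro ⟨a, b⟩ hab
        rw [hS]
        simp only [mem_sigma, mem_biUnion, mem_range] at hab
        obtain ⟨⟨v, _, hv⟩, hb⟩ := hab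
        exact ⟨⟨v, hv⟩, hb⟩
  have h2 : ∀ T : Finset {p // p ∈ Sf}, (∀ s ∈ T, s.1.1 ∈ mm ∧ s.1.2 = 0) →
      ∃ A : Finset W, (∀ v ∈ A, ∃ s ∈ T, s.1.1 ∈ l v) ∧ T.card ≤ A.card := by
    intro T hT
    have hinj : Set.InjOn (fun s : {p // p ∈ Sf} => s.1.1) T := by
      intro s hs t ht hst
      apply Subtype.ext
      exact Sigma.ext hst (heq_of_eq ((hT s hs).2.trans (hT t ht).2.symm))
    refine ⟨univ.filter fun v => ∃ c ∈ T.image (fun s : {p // p ∈ Sf} => s.1.1), c ∈ l v, ?_, ?_⟩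
    · intro v hv
      simp only [mem_filter, mem_univ, true_and, mem_image] at hv
      obtain ⟨c, ⟨s, hs, rfl⟩, hc⟩ := hv
      exact ⟨s, hs, hc⟩
    · rw [← card_image_of_injOn hinj]
      apply hZ
      intro c hc
      rw [mem_image] at hc
      obtain ⟨s, hs, rfl⟩ := hc
      exact (hT s hs).1
  obtain ⟨g, hg1, hg2, hg3⟩ := h W {p // p ∈ Sf} (fun v p => p.1.1 ∈ l v)
    (fun p => p.1.1 ∈ mm ∧ p.1.2 = 0) h1 h2
  refine ⟨fun v => (g v).1.1, hg2, ?_, ?_⟩
  · intro c hc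
    have h1 := hZ {c} (by simpa using hc)
    simp only [card_singleton, mem_singleton, exists_eq_left] at h1
    obtain ⟨v, hv⟩ := card_pos.1 (lt_of_lt_of_le one_pos h1)
    have hv' : c ∈ l v := by simpa using hv
    have hmem : (⟨c, 0⟩ : (_ : ℕ) × ℕ) ∈ Sf := (hS _).2 ⟨⟨v, hv'⟩, hq c hc⟩
    obtain ⟨w, hw⟩ := hg3 ⟨⟨c, 0⟩, hmem⟩ ⟨hc, rfl⟩
    exact ⟨w, by simp only [hw]⟩
  · intro c
    unfold use
    rw [← card_range (q c)]
    apply card_le_card_of_injOn (fun v => (g v).1.2)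
    · intro v hv
      have hv' : (g v).1.1 = c := by simpa using hv
      have := ((hS _).1 (g v).2).2
      rw [hv'] at this
      simpa using this
    · intro v hv w hw hvw
      have hv' : (g v).1.1 = c := by simpa using hv
      have hw' : (g w).1.1 = c := by simpa using hw
      apply hg1
      apply Subtype.ext
      exact Sigma.ext (hv'.trans hw'.symm) (heq_of_eq hvw)

end Pool.Agent.Q157.PC.TaskQuota
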